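import Pool.Agent.Helper28.MT.Goals

/-!
# Project MT (MP_bb782b_co), packet LOSS: what the earlier sets take from the reservoirs
-/

set_option autoImplicit false

namespace Pool.Agent.Helper45.MT

open Finset
open Pool.Agent.Helper55.Rota
open Pool.Agent.Helper28.MT

/-- The indices `i` with `i / 2 ^ l = g` are at most `2 ^ l` many. -/
lemma card_div_eq (j l g : ℕ) : ((range j).filter (fun i => i / 2 ^ l = g)).card ≤ 2 ^ l := by
  have h : (range j).filter (fun i => i / 2 ^ l = g) ⊆ Finset.Ico (g * 2 ^ l) (g * 2 ^ l + 2 ^ l) := by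
    intro i hi
    rw [mem_filter] at hi
    rw [Finset.mem_Ico]
    have hp : 0 < 2 ^ l := Nat.pow_pos (by norm_num)
    have h1 := Nat.div_add_mod i (2 ^ l)
    have h2 := Nat.mod_lt i hp
    rw [hi.2] at h1
    constructor
    · rw [mul_comm]; omega
    · rw [mul_comm g]; omega
  refine (card_le_card h).trans ?_
  rw [Nat.card_Ico, Nat.add_sub_cancel_left]

/-- Counting in a disjoint union: sets of small cost meet a set of elements of cost `p` rarely. -/
lemma count {α : Type} [DecidableEq α] (T : ℕ → Finset α) (D : Finset α) (I J : Finset ℕ)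
    (c : α → ℕ) (p W m : ℕ) (hp : 0 < p) (hD : ∀ x ∈ D, c x = p)
    (hJ : ∀ i ∈ I, i ∉ J → T i ∩ D = ∅) (hc : ∀ i ∈ I, ∑ x ∈ T i, c x ≤ W)
    (hm : J.card ≤ 2 * p * m) : (I.biUnion T ∩ D).card ≤ 2 * m * W := by
  classical
  have h1 : I.biUnion T ∩ D ⊆ (I ∩ J).biUnion (fun i => T i ∩ D) := by
    intro x hx
    rw [mem_inter, mem_biUnion] at hx
    obtain ⟨⟨i, hi, hxi⟩, hxD⟩ := hx
    rw [mem_biUnion]
    have hxi2 : x ∈ T i ∩ D := mem_inter.mpr ⟨hxi, hxD⟩
    refine ⟨i, mem_inter.mpr ⟨hi, ?_⟩, hxi2⟩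
    by_contra hn
    rw [hJ i hi hn] at hxi2
    exact absurd hxi2 (notMem_empty x)
  have h2 : ∀ i ∈ I ∩ J, p * (T i ∩ D).card ≤ W := by
    intro i hi
    have hi1 := (mem_inter.mp hi).1
    refine le_trans ?_ (hc i hi1)
    calc p * (T i ∩ D).card = ∑ x ∈ T i ∩ D, c x := by
          rw [sum_congr rfl (fun x hx => hD x (mem_inter.mp hx).2)]
          simp [mul_comm]
      _ ≤ ∑ x ∈ T i, c x := sum_le_sum_of_subset inter_subset_left
  have h3 : (I.biUnion T ∩ D).card ≤ ∑ i ∈ I ∩ J, (T i ∩ D).card :=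
    (card_le_card h1).trans card_biUnion_le
  have h4 : p * (I.biUnion T ∩ D).card ≤ p * (2 * m * W) := by
    calc p * (I.biUnion T ∩ D).card ≤ p * ∑ i ∈ I ∩ J, (T i ∩ D).card :=
          Nat.mul_le_mul_left p h3
      _ = ∑ i ∈ I ∩ J, p * (T i ∩ D).card := by rw [mul_sum]
      _ ≤ ∑ i ∈ I ∩ J, W := sum_le_sum h2
      _ = (I ∩ J).card * W := by simp
      _ ≤ J.card * W := Nat.mul_le_mul_right W (card_le_card inter_subset_right)
      _ ≤ (2 * p * m) * W := Nat.mul_le_mul_right W hm
      _ = p * (2 * m * W) := by ring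
  exact Nat.le_of_mul_le_mul_left h4 hp

theorem mt_loss : G_LOSS := by
  intro α _ _ R n k h s b f T j hs hj hk hG
  classical
  obtain ⟨hT, -⟩ := hG
  have hcost : ∀ i ∈ range j, ∑ x ∈ T i, cost s f x ≤ 2 ^ 31 * h * s ^ 2 * 2 ^ s := by
    intro i hi
    exact (hT i (mem_range.mp hi)).2.2.2
  have hall : ∀ i ∈ range j, T i ⊆ allowed s f i := by
    intro i hi
    exact (hT i (mem_range.mp hi)).1
  generalize 2 ^ 31 * h * s ^ 2 * 2 ^ s = W at hk hcost
  -- an element of a reservoir in `T i` fixes the index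
  have hidx : ∀ l g, ∀ i ∈ range j, ∀ x ∈ T i, x ∈ res s l g f → i / 2 ^ l = g := by
    intro l g i hi x hx hr
    have ha := hall i hi hx
    simp only [allowed, mem_filter, mem_univ, true_and] at ha
    simp only [res, mem_filter, mem_univ, true_and] at hr
    obtain ⟨h1, h2, h3⟩ := hr
    rcases ha with ha | ha
    · omega
    · rw [h2, h3] at ha
      exact ha.symm
  refine ⟨?_, ?_, ?_⟩
  · have hc := count T (top s f) (range j) (range j) (cost s f) (2 ^ (s - 1)) W 1
      (Nat.pow_pos (by norm_num)) (by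
        intro x hx
        simp only [top, mem_filter, mem_univ, true_and] at hx
        simp [cost, hx]) (fun i hi hn => absurd hi hn) hcost (by
        rw [card_range]
        have : 2 ^ s = 2 * 2 ^ (s - 1) := by
          rw [← pow_succ']
          congr 1
          omega
        omega)
    omega
  · intro l hl hls g
    have hc := count T (res s l g f) (range j) ((range j).filter (fun i => i / 2 ^ l = g)) (cost s f)
      (2 ^ (l - 1)) W 1 (Nat.pow_pos (by norm_num)) (by
        intro x hx
        simp only [res, mem_filter, mem_univ, true_and] at hx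
        obtain ⟨h1, h2, -⟩ := hx
        have h3 : ¬ s * 2 ^ s ≤ f x := by omega
        have h4 : l ≠ 0 := by omega
        simp [cost, h3, h2, h4]) (by
        intro i hi hn
        rw [eq_empty_iff_forall_notMem]
        intro x hx
        rw [mem_inter] at hx
        exact hn (mem_filter.mpr ⟨hi, hidx l g i hi x hx.1 hx.2⟩)) hcost (by
        refine (card_div_eq j l g).trans ?_
        have : 2 ^ l = 2 * 2 ^ (l - 1) := by
          rw [← pow_succ']
          congr 1
          omega
        omega)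
    omega
  · rw [eq_empty_iff_forall_notMem]
    intro x hx
    rw [mem_inter, mem_biUnion] at hx
    obtain ⟨⟨i, hi, hxi⟩, hr⟩ := hx
    have h1 := hidx 0 j i hi x hxi hr
    rw [pow_zero, Nat.div_one] at h1
    have h2 := mem_range.mp hi
    omega

end Pool.Agent.Helper45.MT
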